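import Pool.Agent.Y240.ST.Places
import Pool.Agent.Y691.ST.Ind
import Pool.Agent.Y691.ST.BeiDefs

/-!
# The equivariant conjecture of Beilinson and base fields with many complex places
-/

set_option autoImplicit false

open Pool.Agent.Y691.ST Pool.Agent.Y240.ST

namespace Pool.Agent.Results.MP_a93ca1_nt.ManyComplexPlaces

/-- **The equivariant conjecture of Beilinson and base fields with many complex places.** Let `k > 1`, let
`σ` be an automorphism of `ℂ` and let `D U χ` be the quotient `A(χ)^σ / A(χ^σ)` for the character `χ` of a
finite Galois extension of the number field `K = Qbar^U`, with its known properties; `A(χ)` is the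
regulator of Borel on the `χ`-component of `K_{2k-1}` divided by the leading coefficient of the
`L`-function at `1 - k`. The conjecture for the abelian extensions `L` of `K` says that `D U χ = 1` for all
linear characters `χ` (and all `σ`). Let `N` be any natural number.

* The conjecture is true for all abelian extensions of number fields if and only if it is true for the
  linear characters of the number fields with at least `N` complex places.
* In this case the quotient is `1` for all characters of all finite Galois extensions of number fields,
  abelian or not. -/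
theorem result {d : (GalQ → ℂ) → ℂˣ} {D : (U : Subgroup GalQ) → (U → ℂ) → ℂˣ}
    (hD : IsBorelDefect d D) (N : ℕ) :
    (HoldsLinear (fun _ => True) D ↔ HoldsLinear (fun U => 2 * N ≤ nonReal U) D) ∧
    (HoldsLinear (fun U => 2 * N ≤ nonReal U) D → Holds D) := by
  obtain ⟨c, φ, hφ, -⟩ := exists_conjugation
  have key : HoldsLinear (fun U => 2 * N ≤ nonReal U) D → Holds D := by
    intro h U θ hU hθ
    rw [hD.ind U θ hU hθ]
    refine many_places ⟨φ, hφ⟩ (2 * N) hD.add ?_ (isArtin_ind hU hθ)
    intro V χ hχ hV
    obtain ⟨h1, h2⟩ := isOpenLinear_iff.mp hχ
    have h3 : D V (lin χ) = d (indF V χ) := by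
      rw [hD.ind V _ h1 (isArtin_lin h2), indC_lin]
    rw [← h3]
    exact h V χ h1 h2 (hV.trans (moved_le_nonReal hφ h1))
  refine ⟨⟨fun h U χ h1 h2 _ => h U χ h1 h2 trivial, fun h U χ h1 h2 _ => ?_⟩, key⟩
  exact key h U _ h1 (isArtin_lin h2)

end Pool.Agent.Results.MP_a93ca1_nt.ManyComplexPlaces
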