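import Pool.Agent.Y691.ST.SplitOne

/-!
# The equivariant conjecture of Beilinson and extensions with small decomposition groups
-/

set_option autoImplicit false

open Pool.Agent.Y691.ST

namespace Pool.Agent.Results.MP_a93ca1_nt.SplitOrLocal

/-- **The equivariant conjecture of Beilinson and extensions with small decomposition groups.** Let
`k > 1`, let `σ` be an automorphism of `ℂ` and let `D U χ` be the quotient `A(χ)^σ / A(χ^σ)` for the
character `χ` of a finite Galois extension of the number field `K = Qbar^U`, with its known properties;
`A(χ)` is the regulator of Borel on the `χ`-component of `K_{2k-1}` divided by the leading coefficient of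
the `L`-function at `1 - k`. The conjecture says that `D U χ = 1` for linear `χ` (and all `σ`). Let `M` be a
finite Galois extension of `ℚ` (the fixed field of `N`) and `V` a finite set of places of `ℚ`, for example
the real place and all primes which are ramified in `M`.

Assume the conjecture for the linear characters `χ` of order at least `3` of the number fields `K` such
that, for some prime `p`, the character `χ` is trivial on `K M`, the Galois group of `K M / K` is an
extension of a `p`-group by a cyclic group, and

* either all decomposition groups of `K M / K` at the places above the places in `V` are `p`-groups,
* or the Galois group of `K M / K` is contained in the decomposition group of a place of `M` above a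
  place in `V`.

Then `D U χ = 1` for all characters of the Galois group of `M / K`, for all subfields `K` of `M`; in
particular the conjecture is true for the abelian subextensions of `M / K`. -/
theorem result {d : (GalQ → ℂ) → ℂˣ} {D : (U : Subgroup GalQ) → (U → ℂ) → ℂˣ}
    (hD : IsBorelDefect d D) {V : Finset (AbsoluteValue Qbar ℝ)} (hV : ArePlaces V)
    {N : Subgroup GalQ} (hNn : N.Normal) (hN : IsOpen (N : Set GalQ))
    (good : HoldsAdmissible V N D) : HoldsFor N D :=
  borel_split hD hV hNn hN good

end Pool.Agent.Results.MP_a93ca1_nt.SplitOrLocal
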