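import Pool.Agent.Y691.ST.Bei

/-!
# The equivariant conjecture of Beilinson and totally complex base fields
-/

set_option autoImplicit false

open Pool.Agent.Y691.ST

namespace Pool.Agent.Results.MP_a93ca1_nt.TotallyComplexBases

/-- **The equivariant conjecture of Beilinson and totally complex base fields.** Let `k > 1`, let `σ` be
an automorphism of `ℂ` and let `D U χ` be the quotient `A(χ)^σ / A(χ^σ)` for the character `χ` of a finite
Galois extension of the number field `K = Qbar^U`, with its known properties; `A(χ)` is the regulator of
Borel on the `χ`-component of `K_{2k-1}` divided by the leading coefficient of the `L`-function at `1 - k`.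
The conjecture for the abelian extensions `L` of `K` says that `D U χ = 1` for all linear characters `χ`
(and all `σ`).

* It is true for all abelian extensions of number fields if and only if it is true for the linear
  characters of the totally complex number fields and for the linear characters of order `2^k ≥ 4` of
  the number fields which are not totally complex.
* If it is true for the linear characters of the totally complex number fields, then for all number
  fields `K` and all characters of all finite Galois extensions of `K`, abelian or not, the quotient is a
  root of unity of `2`-power order. -/
theorem result {d : (GalQ → ℂ) → ℂˣ} {D : (U : Subgroup GalQ) → (U → ℂ) → ℂˣ}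
    (hD : IsBorelDefect d D) :
    (HoldsLinear (fun _ => True) D ↔
      HoldsLinear TotallyComplex D ∧ HoldsTwoPower (fun U => ¬ TotallyComplex U) D) ∧
    (HoldsLinear TotallyComplex D → HoldsUpToTwo D) := by
  obtain ⟨h1, h2⟩ := borel_defect hD
  refine ⟨⟨fun h => ⟨fun U χ ha hb _ => h U χ ha hb trivial,
    fun U χ ha hb _ _ _ => h U χ ha hb trivial⟩, fun h => ?_⟩, h2⟩
  exact fun U χ ha hb _ => h1.mpr h U _ ha (isArtin_lin hb)

end Pool.Agent.Results.MP_a93ca1_nt.TotallyComplexBases
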